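import Pool.Agent.H75C.HY.Stm

/-!
# Finding the arguments of a connective in the word of a formula (part B)
-/

set_option autoImplicit false

namespace Pool.Agent.Helper36.HYB

open Pool.Agent.NPC Pool.Agent.H75C.HY

variable {𝔅 : Base}

/-! ### Scanning -/

/-- What follows the first mark `(4, j)` of level `0`. -/
def fnd (j : ℕ) : ℕ → List Tok → List Tok
  | _, [] => []
  | l, t :: w =>
    if l = 0 ∧ t = (4, j) then w
    else if t.1 = 3 ∨ t.1 = 6 ∨ t.1 = 7 then fnd j (l + 1) w
    else if t.1 = 5 then fnd j (l - 1) w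
    else fnd j l w

theorem fnd_up {j l : ℕ} {t : Tok} {w : List Tok} (h : t.1 = 3 ∨ t.1 = 6 ∨ t.1 = 7) :
    fnd j l (t :: w) = fnd j (l + 1) w := by
  have h1 : ¬ (l = 0 ∧ t = (4, j)) := by
    rintro ⟨-, rfl⟩
    simp at h
  rw [fnd, if_neg h1, if_pos h]

theorem fnd_down {j l : ℕ} {t : Tok} {w : List Tok} (h : t.1 = 5) :
    fnd j l (t :: w) = fnd j (l - 1) w := by
  have h1 : ¬ (l = 0 ∧ t = (4, j)) := by
    rintro ⟨-, rfl⟩
    simp at h
  have h2 : ¬ (t.1 = 3 ∨ t.1 = 6 ∨ t.1 = 7) := by omega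
  rw [fnd, if_neg h1, if_neg h2, if_pos h]

theorem fnd_skip {j l : ℕ} {t : Tok} {w : List Tok} (h : ¬ (l = 0 ∧ t = (4, j)))
    (h3 : t.1 ≠ 3) (h5 : t.1 ≠ 5) (h6 : t.1 ≠ 6) (h7 : t.1 ≠ 7) :
    fnd j l (t :: w) = fnd j l w := by
  have h2 : ¬ (t.1 = 3 ∨ t.1 = 6 ∨ t.1 = 7) := by omega
  rw [fnd, if_neg h, if_neg h2, if_neg h5]

theorem fnd_atom {j l : ℕ} {t : Tok} {w : List Tok}
    (h3 : t.1 ≠ 3) (h4 : t.1 ≠ 4) (h5 : t.1 ≠ 5) (h6 : t.1 ≠ 6) (h7 : t.1 ≠ 7) :
    fnd j l (t :: w) = fnd j l w := by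
  refine fnd_skip ?_ h3 h5 h6 h7
  rintro ⟨-, rfl⟩
  exact h4 rfl

theorem fnd_args {j l : ℕ} {n : ℕ} (W : Fin n → List Tok) (m : Fin n → ℕ)
    (h : ∀ i (s : List Tok), fnd j (l + 1) (W i ++ s) = fnd j (l + 1) s) (s : List Tok) :
    fnd j (l + 1) ((List.ofFn (fun i => W i ++ [((4, m i) : Tok)])).flatten ++ s) =
      fnd j (l + 1) s := by
  induction n with
  | zero => simp
  | succ n ih =>
    rw [List.ofFn_succ, List.flatten_cons, List.append_assoc, List.append_assoc, h 0,
      List.singleton_append, fnd_skip (by omega) (by simp) (by simp) (by simp) (by simp)]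
    exact ih (fun i => W i.succ) (fun i => m i.succ) (fun i => h i.succ)

/-- Scanning the word of a formula does not change the level. -/
theorem fnd_pr (j : ℕ) (φ : Form 𝔅) : ∀ (l : ℕ) (s : List Tok),
    fnd j l (pr φ ++ s) = fnd j l s := by
  induction φ with
  | prop i => intro l s; exact fnd_atom (by simp) (by simp) (by simp) (by simp) (by simp)
  | nom i => intro l s; exact fnd_atom (by simp) (by simp) (by simp) (by simp) (by simp)
  | var x => intro l s; exact fnd_atom (by simp) (by simp) (by simp) (by simp) (by simp)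
  | app b φ ih =>
    intro l s
    have e : pr (Form.app b φ) ++ s = (3, 𝔅.idx b) :: ((List.ofFn (fun i => pr (φ i) ++
        [((4, (i : ℕ)) : Tok)])).flatten ++ ((5, 0) :: s)) := by
      rw [pr]
      simp
    rw [e, fnd_up (by simp), fnd_args (fun i => pr (φ i)) (fun i => (i : ℕ))
      (fun i s => ih i (l + 1) s), fnd_down (by simp), Nat.add_sub_cancel]
  | dia φ ih =>
    intro l s
    have e : pr (Form.dia φ) ++ s = (6, 0) :: (pr φ ++ ((5, 1) :: s)) := by
      rw [pr]
      simp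
    rw [e, fnd_up (by simp), ih, fnd_down (by simp), Nat.add_sub_cancel]
  | box φ ih =>
    intro l s
    have e : pr (Form.box φ) ++ s = (7, 0) :: (pr φ ++ ((5, 1) :: s)) := by
      rw [pr]
      simp
    rw [e, fnd_up (by simp), ih, fnd_down (by simp), Nat.add_sub_cancel]
  | bind x φ ih =>
    intro l s
    rw [pr, List.cons_append, fnd_atom (by simp) (by simp) (by simp) (by simp) (by simp), ih]
  | atNom x φ ih =>
    intro l s
    rw [pr, List.cons_append, fnd_atom (by simp) (by simp) (by simp) (by simp) (by simp), ih]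
  | atVar x φ ih =>
    intro l s
    rw [pr, List.cons_append, fnd_atom (by simp) (by simp) (by simp) (by simp) (by simp), ih]

/-- The argument after the mark `m + i`. -/
theorem fnd_arg (n : ℕ) : ∀ (m : ℕ) (F : Fin (n + 1) → Form 𝔅) (i : Fin n) (s : List Tok),
    ∃ s' : List Tok, fnd (m + (i : ℕ)) 0 ((List.ofFn (fun k : Fin (n + 1) => pr (F k) ++
      [((4, m + (k : ℕ)) : Tok)])).flatten ++ s) = pr (F i.succ) ++ s' := by
  induction n with
  | zero => intro m F i; exact i.elim0
  | succ n ih =>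
    intro m F i s
    rw [List.ofFn_succ, List.flatten_cons, List.append_assoc, List.append_assoc, fnd_pr,
      List.singleton_append]
    refine Fin.cases ?_ (fun i => ?_) i
    · rw [fnd, if_pos ⟨rfl, by simp⟩, List.ofFn_succ, List.flatten_cons, List.append_assoc,
        List.append_assoc]
      exact ⟨_, rfl⟩
    · have hne : ¬ ((0 : ℕ) = 0 ∧ ((4, m + ((0 : Fin (n + 1 + 1)) : ℕ)) : Tok) =
          (4, m + ((i.succ : Fin (n + 1)) : ℕ))) := by
        rintro ⟨-, h⟩
        have h1 := (Prod.mk.inj h).2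
        rw [Fin.val_succ, Fin.val_zero] at h1
        omega
      rw [fnd_skip hne (by simp) (by simp) (by simp) (by simp)]
      obtain ⟨s', hs'⟩ := ih (m + 1) (fun k => F k.succ) i s
      refine ⟨s', ?_⟩
      rw [← hs']
      have e1 : m + ((i.succ : Fin (n + 1)) : ℕ) = m + 1 + (i : ℕ) := by
        rw [Fin.val_succ]
        omega
      have e2 : ∀ k : Fin (n + 1), m + ((k.succ : Fin (n + 1 + 1)) : ℕ) = m + 1 + (k : ℕ) := by
        intro k
        rw [Fin.val_succ]
        omega
      simp only [e1, e2]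

theorem sz_fnd_le (j : ℕ) : ∀ (w : List Tok) (l : ℕ), sz (fnd j l w) ≤ sz w := by
  intro w
  induction w with
  | nil => intro l; exact le_rfl
  | cons t w ih =>
    intro l
    have h0 : sz w ≤ sz (t :: w) := by
      rw [sz_list_cons]
      omega
    rw [fnd]
    split_ifs
    · exact h0
    · exact (ih _).trans h0
    · exact (ih _).trans h0
    · exact (ih _).trans h0

/-! ### The same as a fold -/

/-- One step: level, found, what follows (in reverse). -/
def stp (j : ℕ) (s : ℕ × Bool × List Tok) (t : Tok) : ℕ × Bool × List Tok :=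
  if s.2.1 = true then (s.1, s.2.1, t :: s.2.2)
  else if s.1 = 0 ∧ t = (4, j) then (0, true, [])
  else if t.1 = 3 ∨ t.1 = 6 ∨ t.1 = 7 then (s.1 + 1, false, [])
  else if t.1 = 5 then (s.1 - 1, false, [])
  else s

theorem foldl_found (j : ℕ) : ∀ (w : List Tok) (l : ℕ) (acc : List Tok),
    w.foldl (stp j) (l, true, acc) = (l, true, w.reverse ++ acc) := by
  intro w
  induction w with
  | nil => intro l acc; rfl
  | cons t w ih =>
    intro l acc
    rw [List.foldl_cons]
    have e : stp j (l, true, acc) t = (l, true, t :: acc) := by simp [stp]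
    rw [e, ih]
    simp

theorem foldl_fnd (j : ℕ) : ∀ (w : List Tok) (l : ℕ),
    (w.foldl (stp j) (l, false, [])).2.2.reverse = fnd j l w := by
  intro w
  induction w with
  | nil => intro l; rfl
  | cons t w ih =>
    intro l
    rw [List.foldl_cons, fnd, stp]
    simp only [Bool.false_eq_true, if_false]
    split_ifs
    · rw [foldl_found]
      simp
    · exact ih _
    · exact ih _
    · exact ih _

/-- The size of the state. -/
theorem sz_state (j : ℕ) : ∀ (w : List Tok) (l : ℕ), ∃ (l' : ℕ) (c : Bool) (acc : List Tok),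
    w.foldl (stp j) (l, false, []) = (l', c, acc) ∧ l' ≤ l + w.length ∧ sz acc ≤ sz w := by
  intro w
  induction w with
  | nil => intro l; exact ⟨l, false, [], rfl, le_rfl, le_rfl⟩
  | cons t w ih =>
    intro l
    have h0 : sz w ≤ sz (t :: w) := by
      rw [sz_list_cons]
      omega
    have h1 : (t :: w).length = w.length + 1 := rfl
    rw [List.foldl_cons, stp]
    simp only [Bool.false_eq_true, if_false]
    split_ifs
    · refine ⟨0, true, w.reverse ++ [], foldl_found j w 0 [], by omega, ?_⟩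
      rw [List.append_nil, sz_reverse]
      exact h0
    · obtain ⟨l', c, acc, e, e1, e2⟩ := ih (l + 1)
      exact ⟨l', c, acc, e, by omega, e2.trans h0⟩
    · obtain ⟨l', c, acc, e, e1, e2⟩ := ih (l - 1)
      exact ⟨l', c, acc, e, by omega, e2.trans h0⟩
    · obtain ⟨l', c, acc, e, e1, e2⟩ := ih l
      exact ⟨l', c, acc, e, by omega, e2.trans h0⟩

theorem poly_stp : NPC.Poly (fun p : (List Tok × ℕ) × (ℕ × Bool × List Tok) × Tok =>
    stp (p.1.2 - 1) p.2.1 p.2.2) := by
  unfold stp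
  have hj : NPC.Poly (fun p : (List Tok × ℕ) × (ℕ × Bool × List Tok) × Tok => p.1.2 - 1) :=
    NPC.Poly.sub (NPC.Poly.snd (NPC.Poly.fst NPC.Poly.id)) (NPC.Poly.const _)
  have hs : NPC.Poly (fun p : (List Tok × ℕ) × (ℕ × Bool × List Tok) × Tok => p.2.1) :=
    NPC.Poly.fst (NPC.Poly.snd NPC.Poly.id)
  have ht : NPC.Poly (fun p : (List Tok × ℕ) × (ℕ × Bool × List Tok) × Tok => p.2.2) :=
    NPC.Poly.snd (NPC.Poly.snd NPC.Poly.id)
  have hl := NPC.Poly.fst hs
  have hc := NPC.Poly.fst (NPC.Poly.snd hs)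
  have hacc := NPC.Poly.snd (NPC.Poly.snd hs)
  have ek : ∀ n : ℕ, NPC.Poly (fun p : (List Tok × ℕ) × (ℕ × Bool × List Tok) × Tok =>
      decide (p.2.2.1 = n)) := fun n =>
    NPC.Poly.decide_eq (NPC.Poly.fst ht) (NPC.Poly.const _)
  refine NPC.Poly.ite (NPC.Poly.decide_bool hc)
    (NPC.Poly.pair hl (NPC.Poly.pair hc (NPC.Poly.cons ht hacc))) ?_
  refine NPC.Poly.ite (NPC.Poly.decide_and (NPC.Poly.decide_eq hl (NPC.Poly.const _))
    (NPC.Poly.decide_eq ht (NPC.Poly.pair (NPC.Poly.const _) hj))) (NPC.Poly.const _) ?_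
  refine NPC.Poly.ite (NPC.Poly.decide_or (ek 3) (NPC.Poly.decide_or (ek 6) (ek 7)))
    (NPC.Poly.pair (NPC.Poly.add hl (NPC.Poly.const _)) (NPC.Poly.const _)) ?_
  exact NPC.Poly.ite (ek 5)
    (NPC.Poly.pair (NPC.Poly.sub hl (NPC.Poly.const _)) (NPC.Poly.const _)) hs

/-- The argument number `i`. -/
def argAt (w : List Tok) (i : ℕ) : List Tok :=
  if i = 0 then w.tail else (w.tail.foldl (stp (i - 1)) (0, false, [])).2.2.reverse

theorem poly_argAt : NPC.Poly (fun p : List Tok × ℕ => argAt p.1 p.2) := by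
  unfold argAt
  have h1 : NPC.Poly (fun p : List Tok × ℕ => p.1.tail) :=
    NPC.Poly.tail (NPC.Poly.fst NPC.Poly.id)
  refine NPC.Poly.ite (NPC.Poly.decide_eq (NPC.Poly.snd NPC.Poly.id) (NPC.Poly.const _)) h1 ?_
  refine NPC.Poly.reverse (NPC.Poly.snd (NPC.Poly.snd ?_))
  refine NPC.Poly.foldl (F := fun (p : List Tok × ℕ) s t => stp (p.2 - 1) s t) h1
    (NPC.Poly.const _) poly_stp (Polynomial.C 6 * Polynomial.X + Polynomial.C 10) ?_
  intro p k _
  obtain ⟨l', c, acc, e, e1, e2⟩ := sz_state (p.2 - 1) (p.1.tail.take k) 0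
  rw [e]
  have h3 : sz (p.1.tail.take k) ≤ sz p.1.tail := NPC.Poly.sz_take_le _ _
  have h4 : sz p.1.tail ≤ sz p.1 := by
    cases p.1 with
    | nil => exact le_rfl
    | cons a l =>
      rw [List.tail_cons, sz_list_cons]
      omega
  have h5 : sz p = sz p.1 + sz p.2 + 1 := sz_pair p.1 p.2
  have h6 : (p.1.tail.take k).length < sz (p.1.tail.take k) := length_lt_sz _
  have h7 : sz l' ≤ 4 * l' + 1 := (sz_nat_le l').trans (by
    have := NPC.Poly.size_le_self l'
    omega)
  have h8 := sz_bool_le c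
  rw [sz_pair, sz_pair]
  simp only [Polynomial.eval_add, Polynomial.eval_mul, Polynomial.eval_C, Polynomial.eval_X]
  omega

theorem sz_argAt_le (w : List Tok) (i : ℕ) : sz (argAt w i) ≤ sz w := by
  have h4 : sz w.tail ≤ sz w := by
    cases w with
    | nil => exact le_rfl
    | cons a l =>
      rw [List.tail_cons, sz_list_cons]
      omega
  unfold argAt
  split_ifs
  · exact h4
  · rw [foldl_fnd]
    exact (sz_fnd_le _ _ _).trans h4

theorem argAt_spec (b : 𝔅.B) (φ : Fin (𝔅.ar b) → Form 𝔅) (rest : List Tok) (i : Fin (𝔅.ar b)) :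
    ∃ rest' : List Tok, argAt (pr (.app b φ) ++ rest) (i : ℕ) = pr (φ i) ++ rest' := by
  have e : (pr (Form.app b φ) ++ rest).tail = (List.ofFn (fun i => pr (φ i) ++
      [((4, (i : ℕ)) : Tok)])).flatten ++ ((5, 0) :: rest) := by
    rw [pr]
    simp
  unfold argAt
  rw [e]
  clear e
  generalize 𝔅.ar b = n at φ i
  cases n with
  | zero => exact i.elim0
  | succ n =>
    refine Fin.cases ?_ (fun i => ?_) i
    · rw [if_pos (by simp), List.ofFn_succ, List.flatten_cons, List.append_assoc,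
        List.append_assoc]
      exact ⟨_, rfl⟩
    · rw [if_neg (by simp), foldl_fnd]
      obtain ⟨s', hs'⟩ := fnd_arg n 0 φ i ((5, 0) :: rest)
      refine ⟨s', ?_⟩
      rw [← hs']
      simp

/-! ### Evaluation of the connectives -/

theorem poly_ev : ∀ (k : ℕ) (f : (Fin k → Bool) → Bool),
    NPC.Poly (fun z : List Bool => f (fun i => z.getD (i : ℕ) false)) := by
  intro k
  induction k with
  | zero =>
    intro f
    refine (NPC.Poly.const (f (fun i => i.elim0))).congr fun z => ?_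
    congr 1
    funext i
    exact i.elim0
  | succ k ih =>
    intro f
    have h1 : NPC.Poly (fun z : List Bool => z.head?.getD false) :=
      NPC.Poly.head?_getD NPC.Poly.id false
    have h2 : ∀ c : Bool, NPC.Poly (fun z : List Bool =>
        (fun x : Fin k → Bool => f (Fin.cons c x)) (fun i => z.tail.getD (i : ℕ) false)) := fun c =>
      (ih (fun x => f (Fin.cons c x))).comp (NPC.Poly.tail NPC.Poly.id)
    refine (NPC.Poly.cond h1 (h2 true) (h2 false)).congr fun z => ?_
    have e : (fun i : Fin (k + 1) => z.getD (i : ℕ) false) =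
        Fin.cons (z.head?.getD false) (fun i : Fin k => z.tail.getD (i : ℕ) false) := by
      funext i
      refine Fin.cases ?_ (fun i => ?_) i
      · cases z <;> simp
      · cases z <;> simp
    rw [e]
    cases z.head?.getD false <;> rfl

/-- Search in a list of symbols. -/
def lookE (𝔅 : Base) : List 𝔅.B → ℕ → List Bool → Bool
  | [], _, _ => false
  | b :: t, n, z => if n = 𝔅.idx b then 𝔅.ev b (fun i => z.getD (i : ℕ) false) else lookE 𝔅 t n z

def lookK (𝔅 : Base) : List 𝔅.B → ℕ → ℕ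
  | [], _ => 0
  | b :: t, n => if n = 𝔅.idx b then 𝔅.ar b else lookK 𝔅 t n

theorem poly_lookE (𝔅 : Base) (l : List 𝔅.B) :
    NPC.Poly (fun p : ℕ × List Bool => lookE 𝔅 l p.1 p.2) := by
  induction l with
  | nil => exact NPC.Poly.const _
  | cons b t ih =>
    exact NPC.Poly.ite (NPC.Poly.decide_eq (NPC.Poly.fst NPC.Poly.id) (NPC.Poly.const _))
      ((poly_ev _ (𝔅.ev b)).comp (NPC.Poly.snd NPC.Poly.id)) ih

theorem poly_lookK (𝔅 : Base) (l : List 𝔅.B) : NPC.Poly (lookK 𝔅 l) := by
  induction l with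
  | nil => exact NPC.Poly.const _
  | cons b t ih =>
    exact NPC.Poly.ite (NPC.Poly.decide_eq NPC.Poly.id (NPC.Poly.const _))
      (NPC.Poly.const _) ih

theorem lookE_spec (𝔅 : Base) (z : List Bool) (b : 𝔅.B) : ∀ l : List 𝔅.B, b ∈ l →
    lookE 𝔅 l (𝔅.idx b) z = 𝔅.ev b (fun i => z.getD (i : ℕ) false) := by
  intro l
  induction l with
  | nil => intro h; exact absurd h (by simp)
  | cons b' t ih =>
    intro h
    rw [lookE]
    by_cases hb : 𝔅.idx b = 𝔅.idx b'
    · have := 𝔅.inj hb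
      subst this
      rw [if_pos rfl]
    · rw [if_neg hb]
      refine ih ?_
      rcases List.mem_cons.1 h with rfl | h'
      · exact absurd rfl hb
      · exact h'

theorem lookK_spec (𝔅 : Base) (b : 𝔅.B) : ∀ l : List 𝔅.B, b ∈ l →
    lookK 𝔅 l (𝔅.idx b) = 𝔅.ar b := by
  intro l
  induction l with
  | nil => intro h; exact absurd h (by simp)
  | cons b' t ih =>
    intro h
    rw [lookK]
    by_cases hb : 𝔅.idx b = 𝔅.idx b'
    · have := 𝔅.inj hb
      subst this
      rw [if_pos rfl]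
    · rw [if_neg hb]
      refine ih ?_
      rcases List.mem_cons.1 h with rfl | h'
      · exact absurd rfl hb
      · exact h'

/-- PART B. -/
theorem partB : PartB := by
  refine ⟨⟨argAt, poly_argAt, sz_argAt_le, fun 𝔅 b φ rest i => argAt_spec b φ rest i⟩, ?_⟩
  intro 𝔅
  have := 𝔅.fin
  obtain ⟨s, hs⟩ : ∃ l : List 𝔅.B, ∀ b, b ∈ l :=
    ⟨(Set.toFinite (Set.univ : Set 𝔅.B)).toFinset.toList, fun b => by simp⟩
  exact ⟨lookE 𝔅 s, lookK 𝔅 s, poly_lookE 𝔅 s, poly_lookK 𝔅 s, fun b =>
    ⟨lookK_spec 𝔅 b s (hs b), fun z => lookE_spec 𝔅 z b s (hs b)⟩⟩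

end Pool.Agent.Helper36.HYB
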